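import Pool.Agent.helper5.SYM.SpecA

/-! # Row sy:L4 -/

set_option autoImplicit false

namespace Pool.Agent.SYM
open Finset CT Polynomial

theorem L4_card {W : Type} [DecidableEq W] {z u : W} {e : W × Fin 4 → W × Fin 4}
    {E : Finset (W × Fin 4)} (hA : Act (dts {z, u} ∪ E) e)
    (h1 : ∀ i j, e (z, i) ≠ (z, j))
    (h3 : ∀ i i' j j', i ≠ i' → e (z, i) = (u, j) → e (z, i') = (u, j') → False) :
    3 ≤ (univ.filter fun i : Fin 4 => e (z, i) ∈ E).card := by
  have hB : (univ.filter fun i : Fin 4 => ¬ e (z, i) ∈ E).card ≤ 1 := by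
    rw [card_le_one]
    intro a ha b hb
    rw [mem_filter] at ha hb
    have key : ∀ a : Fin 4, ¬ e (z, a) ∈ E → ∃ j, e (z, a) = (u, j) := by
      intro a ha
      have h : e (z, a) ∈ dts {z, u} ∪ E := by
        rw [← hA.2, hA.1]
        have : e (z, a) ≠ (z, a) := h1 a a
        exact this.symm
      rcases mem_union.1 h with h | h
      · rw [dts, mem_product, mem_insert, mem_singleton] at h
        rcases h.1 with h | h
        · exact absurd (Prod.ext h rfl : e (z, a) = (z, (e (z, a)).2)) (h1 a _)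
        · exact ⟨(e (z, a)).2, Prod.ext h rfl⟩
      · exact absurd h ha
    by_contra hab
    obtain ⟨j, hj⟩ := key a ha.2
    obtain ⟨j', hj'⟩ := key b hb.2
    exact h3 a b j j' hab hj hj'
  have := card_filter_add_card_filter_not (s := (univ : Finset (Fin 4))) (fun i : Fin 4 => e (z, i) ∈ E)
  rw [card_univ, Fintype.card_fin] at this
  omega

theorem L4_zero (hCMN : CMN_stmt) (hIN : IN_stmt) (hDS : DS_stmt) {W : Type} [DecidableEq W]
    (R : (W × Fin 4 → W × Fin 4) → ZMod 2) {z u : W} {E : Finset (W × Fin 4)}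
    {e : W × Fin 4 → W × Fin 4} (hzu : z ≠ u) (hc : E.card = 4)
    (hA : Act (dts {z, u} ∪ E) e) : NL R [z, u] e = 0 := by
  have hz : ∀ k, e (z, k) ≠ (z, k) := fun k => (hA.2 _).2 (by simp [dts])
  have hu : ∀ k, e (u, k) ≠ (u, k) := fun k => (hA.2 _).2 (by simp [dts])
  by_cases c1 : ∃ i j, e (z, i) = (z, j)
  · obtain ⟨i, j, hij⟩ := c1
    exact hIN W R z [u] e i j hA.1 hz (fun h => hz i (by rw [hij, h])) hij
  by_cases c2 : ∃ i j, e (u, i) = (u, j)
  · obtain ⟨i, j, hij⟩ := c2
    rw [hCMN W R [z, u] [u, z] e (List.Perm.swap _ _ _) (by simp [hzu]) hA.1 (by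
      intro w hw i
      simp only [List.mem_cons, List.not_mem_nil, or_false] at hw
      rcases hw with rfl | rfl
      · exact hz i
      · exact hu i)]
    exact hIN W R u [z] e i j hA.1 hu (fun h => hu i (by rw [hij, h])) hij
  by_cases c3 : ∃ i i' j j', i ≠ i' ∧ e (z, i) = (u, j) ∧ e (z, i') = (u, j')
  · obtain ⟨i, i', j, j', a1, a2, a3⟩ := c3
    exact hDS W R z u [] e i i' j j' hzu hA.1 hz hu a1 a2 a3
  exfalso
  have k1 : ∀ i j, e (z, i) ≠ (z, j) := fun i j h => c1 ⟨i, j, h⟩
  have k2 : ∀ i j, e (u, i) ≠ (u, j) := fun i j h => c2 ⟨i, j, h⟩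
  have k3 : ∀ i i' j j', i ≠ i' → e (z, i) = (u, j) → e (z, i') = (u, j') → False :=
    fun i i' j j' a b c => c3 ⟨i, i', j, j', a, b, c⟩
  have k4 : ∀ i i' j j', i ≠ i' → e (u, i) = (z, j) → e (u, i') = (z, j') → False := by
    intro i i' j j' a b c
    have b' : e (z, j) = (u, i) := by rw [← b, hA.1]
    have c' : e (z, j') = (u, i') := by rw [← c, hA.1]
    have hjj : j ≠ j' := by
      intro h
      subst h
      rw [b'] at c'
      exact a (Prod.mk.inj c').2
    exact k3 j j' i i' hjj b' c'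
  have m1 := L4_card hA k1 k3
  have m2 := L4_card (z := u) (u := z) (by rw [Finset.pair_comm]; exact hA) k2 k4
  have n1 : ((univ.filter fun i : Fin 4 => e (z, i) ∈ E).image fun i => e (z, i)).card =
      (univ.filter fun i : Fin 4 => e (z, i) ∈ E).card := by
    apply card_image_of_injective
    intro a b hab
    exact (Prod.mk.inj ((inj_of hA.1).1 hab)).2
  have n2 : ((univ.filter fun i : Fin 4 => e (u, i) ∈ E).image fun i => e (u, i)).card =
      (univ.filter fun i : Fin 4 => e (u, i) ∈ E).card := by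
    apply card_image_of_injective
    intro a b hab
    exact (Prod.mk.inj ((inj_of hA.1).1 hab)).2
  have hd : Disjoint ((univ.filter fun i : Fin 4 => e (z, i) ∈ E).image fun i => e (z, i))
      ((univ.filter fun i : Fin 4 => e (u, i) ∈ E).image fun i => e (u, i)) := by
    rw [Finset.disjoint_left]
    intro x hx hy
    obtain ⟨a, _, ha⟩ := mem_image.1 hx
    obtain ⟨b, _, hb⟩ := mem_image.1 hy
    rw [← ha] at hb
    exact hzu (Prod.mk.inj ((inj_of hA.1).1 hb)).1.symm
  have hs : ((univ.filter fun i : Fin 4 => e (z, i) ∈ E).image fun i => e (z, i)) ∪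
      ((univ.filter fun i : Fin 4 => e (u, i) ∈ E).image fun i => e (u, i)) ⊆ E := by
    intro x hx
    rcases mem_union.1 hx with h | h
    · obtain ⟨a, ha, rfl⟩ := mem_image.1 h
      exact (mem_filter.1 ha).2
    · obtain ⟨a, ha, rfl⟩ := mem_image.1 h
      exact (mem_filter.1 ha).2
  have := card_le_card hs
  rw [card_union_of_disjoint hd, n1, n2, hc] at this
  omega

theorem L4_nl0 {W : Type} [DecidableEq W] (L : List W) (e : W × Fin 4 → W × Fin 4) :
    NL (fun _ => 0) L e = 0 := by
  induction L generalizing e with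
  | nil => rfl
  | cons u L ih =>
    show (∑ t : Fin 3, if ls e u t = 0 then NL (fun _ => 0) L (sm e u t) else 0) = 0
    apply sum_eq_zero
    intro t _
    rw [ih, ite_self]

theorem L4 (hNA : NA_stmt) (hNLC : NLC_stmt) (hCMN : CMN_stmt) (hIN : IN_stmt) (hDS : DS_stmt) :
    L4_stmt := by
  intro W _ R L E e hnd hE hc hL hA
  obtain ⟨L', z, u, rfl⟩ : ∃ L' z u, L = L' ++ [z, u] := by
    rcases List.eq_nil_or_concat L with h | ⟨L₁, u, h⟩
    · rw [h] at hL
      simp at hL
    rcases List.eq_nil_or_concat L₁ with h' | ⟨L₂, z, h'⟩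
    · rw [h, h'] at hL
      simp at hL
    exact ⟨L₂, z, u, by rw [h, h']; simp⟩
  have hzu : z ≠ u := by
    have := (List.nodup_append.1 hnd).2.1
    simpa using this
  rw [hNA, hNLC W (NL R [z, u]) (fun _ => 0) L' (dts {z, u} ∪ E) e (List.nodup_append.1 hnd).1 ?_ ?_ ?_]
  · exact L4_nl0 L' e
  · intro x hx hx'
    rcases mem_union.1 hx with h | h
    · rw [dts, mem_product, mem_insert, mem_singleton] at h
      have h2 := (List.nodup_append.1 hnd).2.2 x.1 hx' x.1 (by
        simp only [List.mem_cons, List.not_mem_nil, or_false]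
        exact h.1)
      exact h2 rfl
    · exact hE x h (List.mem_append_left _ hx')
  · have : dts L'.toFinset ∪ (dts {z, u} ∪ E) = dts (L' ++ [z, u]).toFinset ∪ E := by
      ext x
      simp only [dts, mem_union, mem_product, List.mem_toFinset, mem_insert, mem_singleton,
        List.mem_append, List.mem_cons, List.not_mem_nil, or_false, mem_univ, and_true]
      tauto
    rw [this]
    exact hA
  · intro e' he'
    exact L4_zero hCMN hIN hDS R hzu hc he'

end Pool.Agent.SYM
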