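import Pool.Agent.helper5.SYM.SpecB

/-! # Row sy:YF1 -/

set_option autoImplicit false

namespace Pool.Agent.SYM
open Finset CT Polynomial

theorem YF1_cases (a : ZMod 2) : a = 0 ∨ a = 1 := by
  revert a
  decide

theorem YF1_th0 {V : Type} {G : SimpleGraph V} (σ : G ≃g G) : th σ 0 = RelIso.refl _ := by
  unfold th
  rw [if_pos rfl]

theorem YF1_th1 {V : Type} {G : SimpleGraph V} (σ : G ≃g G) : th σ 1 = σ := by
  unfold th
  rw [if_neg (by decide)]

theorem YF1_sd0 {V : Type} {G : SimpleGraph V} (d : G.Dart) :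
    sd (RelIso.refl _ : G ≃g G) d = d := rfl

theorem YF1 : YF1_stmt := by
  intro V _ _ G σ hσ
  refine ⟨fun d => ⟨fun h h1 => ?_, fun h a ha => ?_⟩, fun a b v => ?_, fun τ => ⟨fun h => ?_,
    fun h a => ?_⟩, fun τ hτ hI d => ⟨fun h => ?_, fun h => ?_⟩⟩
  · have := h 1 (by rw [YF1_th1]; exact h1)
    exact absurd this (by decide)
  · rcases YF1_cases a with rfl | rfl
    · rfl
    · rw [YF1_th1] at ha
      exact absurd ha h
  · rcases YF1_cases a with rfl | rfl
    · rw [zero_add, YF1_th0]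
      rfl
    · rcases YF1_cases b with rfl | rfl
      · rw [add_zero, YF1_th0]
        rfl
      · rw [show (1 + 1 : ZMod 2) = 0 by decide, YF1_th0, YF1_th1, hσ.1]
        rfl
  · have := h 1
    rwa [YF1_th1] at this
  · rcases YF1_cases a with rfl | rfl
    · rw [YF1_th0]
      intro d
      rw [YF1_sd0, YF1_sd0]
    · rw [YF1_th1]
      exact h
  · rw [← hI d] at h
    rw [← hτ.1 (sd σ d), h, hτ.1]
  · rw [← hI d, h]

end Pool.Agent.SYM
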